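import Pool.Agent.H831R3.LC.Final

/-!
# The linear complexity profile of the digits of algebraic irrational numbers

For a real irrational root `x` of an integer polynomial of degree `d` and every base the linear
complexity over `ℚ` of the first `L` digits of `x` lies between `(1/d - ε) L` and
`(1 - 1/d + ε) L`, for all large `L`, uniformly in the base.
-/

set_option autoImplicit false

namespace Pool.Agent.Results.MP_5b6025_nt.LinearComplexity

open Finset Polynomial

/-- the `i`-th digit of `x` after the point in base `b` -/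
noncomputable def digit (b : ℕ) (x : ℝ) (i : ℕ) : ℤ := ⌊x * (b : ℝ) ^ i⌋ % (b : ℤ)

/-- The first `L` digits `a_1, …, a_L` satisfy a linear recurrence of order `m` over `ℚ`:
`a_(i+m) = c_0 a_i + … + c_(m-1) a_(i+m-1)` for `1 ≤ i ≤ L - m`. -/
def Recurrence (b : ℕ) (x : ℝ) (L m : ℕ) : Prop :=
  ∃ c : ℕ → ℚ, ∀ i : ℕ, 1 ≤ i → i + m ≤ L →
    (digit b x (i + m) : ℚ) = ∑ j ∈ range m, c j * (digit b x (i + j) : ℚ)

/-- the linear complexity over `ℚ` of the first `L` digits: the least order of a recurrence -/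
noncomputable def linearComplexity (b : ℕ) (x : ℝ) (L : ℕ) : ℕ := sInf {m | Recurrence b x L m}

/-- Liouville's inequality -/
theorem liouville (x : ℝ) (hx : Irrational x) (f : ℤ[X]) (d : ℕ) (hd : f.natDegree = d)
    (hd2 : 2 ≤ d) (h : aeval x f = 0) :
    ∃ c : ℝ, 0 < c ∧ ∀ q : ℕ, 1 ≤ q → ∀ p : ℤ, c ≤ (q : ℝ) ^ ((d : ℝ) - 1) * |q * x - p| := by
  have f0 : f ≠ 0 := by
    intro h0
    rw [h0, natDegree_zero] at hd
    omega
  obtain ⟨a, ha, hL⟩ := Liouville.exists_pos_real_of_irrational_root hx f0 (by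
    rw [eval_map_algebraMap]
    exact h)
  refine ⟨1 / a, by positivity, fun q hq p => ?_⟩
  have h1 := hL p (q - 1)
  have hqR : (0 : ℝ) < q := by exact_mod_cast hq
  have e1 : (((q - 1 : ℕ) : ℝ) + 1) = q := by
    rw [Nat.cast_sub hq]
    push_cast
    ring
  rw [e1, hd] at h1
  have e2 : |x - p / q| = |q * x - p| / q := by
    rw [← abs_of_pos hqR, ← abs_div, abs_of_pos hqR]
    congr 1
    field_simp
  rw [e2] at h1
  have e3 : (q : ℝ) ^ ((d : ℝ) - 1) = (q : ℝ) ^ d / q := by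
    rw [Real.rpow_sub hqR, Real.rpow_natCast, Real.rpow_one]
  rw [div_le_iff₀ ha, e3]
  calc (1 : ℝ) ≤ (q : ℝ) ^ d * (|q * x - p| / q * a) := h1
    _ = (q : ℝ) ^ d / q * |q * x - p| * a := by ring

/-- Let `x` be a real irrational root of an integer polynomial of degree `d`.  For every `ε > 0`
there is `L₀` such that for all `L ≥ L₀` and all bases `b ≥ 2` the linear complexity over `ℚ` of
the first `L` digits of `x` in base `b` lies between `(1/d - ε) L` and `(1 - 1/d + ε) L`. -/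
theorem result (x : ℝ) (hx : Irrational x) (f : ℤ[X]) (d : ℕ) (hd : f.natDegree = d)
    (hd2 : 2 ≤ d) (h : aeval x f = 0) (ε : ℝ) (hε : 0 < ε) :
    ∃ L₀ : ℕ, ∀ L : ℕ, L₀ ≤ L → ∀ b : ℕ, 2 ≤ b →
      (1 / d - ε) * L < linearComplexity b x L ∧
        (linearComplexity b x L : ℝ) < (1 - 1 / d + ε) * L := by
  obtain ⟨c, hc, hq⟩ := liouville x hx f d hd hd2 h
  have hdR : (2 : ℝ) ≤ d := by exact_mod_cast hd2
  have hd0 : (0 : ℝ) < d := by linarith
  obtain ⟨θ, hθ⟩ : ∃ θ : ℝ, θ = max 0 (1 / d - ε / 2) := ⟨_, rfl⟩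
  have hθ0 : 0 ≤ θ := by rw [hθ]; exact le_max_left _ _
  have hθ1 : 1 / (d : ℝ) - ε / 2 ≤ θ := by rw [hθ]; exact le_max_right _ _
  have hθ2 : θ < 1 / d := by
    rw [hθ]
    exact max_lt (by positivity) (by linarith)
  obtain ⟨L₀, hL₀⟩ := Pool.Agent.H831R3.LC.profile x ((d : ℝ) - 1) c (by linarith) hc hq θ hθ0
    (by rw [lt_div_iff₀ hd0] at hθ2; linarith)
  refine ⟨max L₀ 1, fun L hL b hb => ?_⟩
  obtain ⟨h1, h2⟩ := hL₀ L (le_trans (le_max_left _ _) hL) b hb
  have hL1 : (1 : ℝ) ≤ L := by exact_mod_cast le_trans (le_max_right _ _) hL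
  have h3 : (1 / (d : ℝ) - ε / 2) * L ≤ θ * L := mul_le_mul_of_nonneg_right hθ1 (by linarith)
  have h4 : 0 < ε * L := by positivity
  constructor
  · calc (1 / (d : ℝ) - ε) * L < (1 / (d : ℝ) - ε / 2) * L := by nlinarith
      _ ≤ θ * L := h3
      _ < _ := h1
  · calc _ ≤ (1 - θ) * (L : ℝ) := h2
      _ ≤ (1 - 1 / d + ε / 2) * L := by linarith
      _ < _ := by nlinarith

end Pool.Agent.Results.MP_5b6025_nt.LinearComplexity
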